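import Mathlib
import Pool.Agent.Y703.CT.Defs
import Pool.Agent.Y692.QS.Pts
import Pool.Agent.Y715.T.RecG

/-!
# Project CT, task LQ: point counts of `y² + D y = x³`
-/

set_option autoImplicit false
set_option linter.unusedVariables false

namespace Pool.Agent.Y696.CT

open Pool.Agent.Y703.CT (WD)
open Pool.Agent.Y692.QS
open Pool.Agent.Y715.T.Rec (cs nn w_pow_cube)
open Pool.Agent.Y715.T.RecG (Pq cs_spec)

lemma eqn (D : ℤ) (l : ℕ) (x y : ZMod l) :
    ((WD D).map (Int.castRingHom (ZMod l))).toAffine.Equation x y ↔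
      y ^ 2 + (D : ZMod l) * y = x ^ 3 := by
  rw [WeierstrassCurve.Affine.equation_iff]
  simp [WD]

lemma aff_eq (D : ℤ) (l : ℕ) : Pool.Agent.W97.MT.affCount (WD D) l =
    Nat.card {P : ZMod l × ZMod l // P.2 ^ 2 + (D : ZMod l) * P.2 = P.1 ^ 3} :=
  Nat.card_congr (Equiv.subtypeEquivRight fun P => eqn D l P.1 P.2)

section

variable {p : ℕ} [hp : Fact p.Prime]

/-- bijective cubing -/
lemma ap_cube (h : Function.Bijective (fun x : ZMod p => x ^ 3)) (D : ℤ) :
    Pool.Agent.W97.MT.ap (WD D) p = 0 := by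
  unfold Pool.Agent.W97.MT.ap
  rw [aff_eq]
  set e := Equiv.ofBijective _ h with he
  have he' : ∀ x, e x = x ^ 3 := fun x => rfl
  have h1 : Nat.card {P : ZMod p × ZMod p // P.2 ^ 2 + (D : ZMod p) * P.2 = P.1 ^ 3} =
      Nat.card (ZMod p) := by
    refine Nat.card_congr ⟨fun P => P.1.2, fun y => ⟨(e.symm (y ^ 2 + (D : ZMod p) * y), y), ?_⟩,
      fun P => ?_, fun y => rfl⟩
    · show y ^ 2 + (D : ZMod p) * y = (e.symm (y ^ 2 + (D : ZMod p) * y)) ^ 3
      rw [← he', Equiv.apply_symm_apply]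
    · obtain ⟨⟨x, y⟩, hP⟩ := P
      apply Subtype.ext
      have hP' : y ^ 2 + (D : ZMod p) * y = x ^ 3 := hP
      refine Prod.ext ?_ rfl
      show e.symm (y ^ 2 + (D : ZMod p) * y) = x
      rw [hP', ← he', Equiv.symm_apply_apply]
  rw [h1, Nat.card_eq_fintype_card, ZMod.card, sub_self]

lemma cube_three : Function.Bijective (fun x : ZMod 3 => x ^ 3) := by
  rw [← Finite.injective_iff_bijective]
  decide

lemma cube_two (h3 : p % 3 = 2) : Function.Bijective (fun x : ZMod p => x ^ 3) := by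
  rw [← Finite.injective_iff_bijective]
  have hk : ∀ x : ZMod p, (x ^ 3) ^ ((2 * p - 1) / 3) = x := by
    intro x
    rw [← pow_mul]
    have h1 : 3 * ((2 * p - 1) / 3) = p + (p - 1) := by
      have := hp.out.two_le
      omega
    rw [h1, pow_add, ZMod.pow_card]
    by_cases hx : x = 0
    · rw [hx, zero_mul]
    · rw [ZMod.pow_card_sub_one_eq_one hx, mul_one]
  intro x y hxy
  have hxy' : x ^ 3 = y ^ 3 := hxy
  rw [← hk x, ← hk y, hxy']

/-- bad primes -/
lemma ap_bad {D : ℤ} (hD : (p : ℤ) ∣ D) : Pool.Agent.W97.MT.ap (WD D) p = 0 := by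
  unfold Pool.Agent.W97.MT.ap
  rw [aff_eq]
  have hD0 : (D : ZMod p) = 0 := (ZMod.intCast_zmod_eq_zero_iff_dvd _ p).2 hD
  have h1 : Nat.card {P : ZMod p × ZMod p // P.2 ^ 2 + (D : ZMod p) * P.2 = P.1 ^ 3} =
      Nat.card (ZMod p) := by
    refine Nat.card_congr ⟨fun P => P.1.2 / P.1.1, fun t => ⟨(t ^ 2, t ^ 3), ?_⟩,
      fun P => ?_, fun t => ?_⟩
    · show (t ^ 3) ^ 2 + (D : ZMod p) * t ^ 3 = (t ^ 2) ^ 3
      rw [hD0]
      ring
    · obtain ⟨⟨x, y⟩, hP⟩ := P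
      apply Subtype.ext
      have hP' : y ^ 2 + (D : ZMod p) * y = x ^ 3 := hP
      rw [hD0, zero_mul, add_zero] at hP'
      show (((y / x) ^ 2, (y / x) ^ 3) : ZMod p × ZMod p) = (x, y)
      by_cases hx : x = 0
      · subst hx
        have hy : y = 0 := by
          rw [zero_pow (by norm_num)] at hP'
          exact pow_eq_zero_iff (by norm_num) |>.1 hP'
        subst hy
        simp
      · refine Prod.ext ?_ ?_
        · show (y / x) ^ 2 = x
          rw [div_pow, hP']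
          field_simp
        · show (y / x) ^ 3 = y
          rw [div_pow, ← hP']
          by_cases hy : y = 0
          · rw [hy]; simp
          · field_simp
    · show t ^ 3 / t ^ 2 = t
      by_cases ht : t = 0
      · rw [ht]; simp
      · field_simp
  rw [h1, Nat.card_eq_fintype_card, ZMod.card, sub_self]

/-- comparison with the short equation -/
lemma ap_short (hp2 : p ≠ 2) (D : ℤ) :
    Pool.Agent.W97.MT.ap (WD D) p = Pool.Agent.Y19.QT.ap 0 (16 * D ^ 2) p := by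
  unfold Pool.Agent.W97.MT.ap Pool.Agent.Y19.QT.ap
  rw [aff_eq]
  have h2 : (2 : ZMod p) ≠ 0 := by
    intro h
    have h1 : ((2 : ℕ) : ZMod p) = 0 := by exact_mod_cast h
    rw [ZMod.natCast_eq_zero_iff] at h1
    exact hp2 ((Nat.prime_dvd_prime_iff_eq hp.out Nat.prime_two).1 h1)
  have h4 : (4 : ZMod p) ≠ 0 := by
    have : (4 : ZMod p) = 2 * 2 := by norm_num
    rw [this]
    exact mul_ne_zero h2 h2
  congr 2
  refine Nat.card_congr (Equiv.subtypeEquiv ⟨fun P => (4 * P.1, 4 * (2 * P.2 + D)),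
    fun P => (P.1 / 4, (P.2 / 4 - D) / 2), fun P => ?_, fun P => ?_⟩ fun P => ?_)
  · refine Prod.ext ?_ ?_
    · show 4 * P.1 / 4 = P.1
      field_simp
    · show (4 * (2 * P.2 + (D : ZMod p)) / 4 - D) / 2 = P.2
      field_simp
      ring
  · refine Prod.ext ?_ ?_
    · show 4 * (P.1 / 4) = P.1
      field_simp
    · show 4 * (2 * ((P.2 / 4 - (D : ZMod p)) / 2) + D) = P.2
      field_simp
      ring
  · show P.2 ^ 2 + (D : ZMod p) * P.2 = P.1 ^ 3 ↔ (4 * (2 * P.2 + (D : ZMod p))) ^ 2 =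
      (4 * P.1) ^ 3 + ((0 : ℤ) : ZMod p) * (4 * P.1) + ((16 * D ^ 2 : ℤ) : ZMod p)
    push_cast
    constructor
    · intro h
      linear_combination 64 * h
    · intro h
      have h64 : (64 : ZMod p) ≠ 0 := by
        have : (64 : ZMod p) = 4 * 4 * 4 := by norm_num
        rw [this]
        exact mul_ne_zero (mul_ne_zero h4 h4) h4
      apply mul_left_cancel₀ h64
      linear_combination h

variable {π : Ei}

lemma ns_of_prim {α : Ei} (h : (3 : Ei) ∣ α - 1) : ns α = α := by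
  unfold ns
  have h1 : ep α = ep 1 := ep_per h
  have h2 : ep (1 : Ei) = 1 := by decide
  rw [h1, h2, star_one, one_mul]

lemma int_ndvd (hπ : nr π = p) {D : ℤ} (hD : ¬ (p : ℤ) ∣ D) : ¬ π ∣ (D : Ei) := by
  rw [← red_zero hπ, map_intCast, ZMod.intCast_zmod_eq_zero_iff_dvd]
  exact hD

lemma chi_cs (h : Pq π) (hπ : nr π = p) (hp3 : p ≠ 3) {D : ℤ} (hD : ¬ (p : ℤ) ∣ D) :
    chi hπ hp3 (D : ZMod p) = w ^ (cs π (D : Ei)).val := by
  have hx := int_ndvd hπ hD
  have hD0 : (D : ZMod p) ≠ 0 := by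
    rwa [Ne, ZMod.intCast_zmod_eq_zero_iff_dvd]
  have h1 := cs_spec h.prime h.norm hx
  have hnn : nn π = (p - 1) / 3 := by
    unfold nn
    rw [hπ, Int.natAbs_natCast]
  rw [← red_zero hπ, map_sub, map_pow, map_intCast, hnn, sub_eq_zero] at h1
  apply hom_inj (zt_sq hπ) (three_ne hp3) (chi_cube hπ hp3 hD0) (w_pow_cube _)
  exact (chi_red hπ hp3 _).trans h1

/-- the trace at primes `1 mod 3` -/
theorem ap_one (h : Pq π) (hπ : nr π = p) (hp3 : p ≠ 3) (hp2 : p ≠ 2) {D : ℤ}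
    (hD : ¬ (p : ℤ) ∣ D) : ((Pool.Agent.W97.MT.ap (WD D) p : ℤ) : Ei) =
      w ^ (-cs π (D : Ei)).val * π + star (w ^ (-cs π (D : Ei)).val * π) := by
  have hpp : Prime (p : ℤ) := Nat.prime_iff_prime_int.1 hp.out
  have h2 : (2 : ZMod p) ≠ 0 := by
    intro h
    have h1 : ((2 : ℕ) : ZMod p) = 0 := by exact_mod_cast h
    rw [ZMod.natCast_eq_zero_iff] at h1
    exact hp2 ((Nat.prime_dvd_prime_iff_eq hp.out Nat.prime_two).1 h1)
  have h4 : (4 : ZMod p) ≠ 0 := by
    have : (4 : ZMod p) = 2 * 2 := by norm_num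
    rw [this]
    exact mul_ne_zero h2 h2
  have hD0 : (D : ZMod p) ≠ 0 := by
    rwa [Ne, ZMod.intCast_zmod_eq_zero_iff_dvd]
  have hB : ¬ (p : ℤ) ∣ 16 * D ^ 2 := by
    rw [← ZMod.intCast_zmod_eq_zero_iff_dvd _ p]
    push_cast
    have : (16 : ZMod p) = 4 * 4 := by norm_num
    rw [this]
    exact mul_ne_zero (mul_ne_zero h4 h4) (pow_ne_zero _ hD0)
  rw [ap_short hp2, ap_eq hπ hp3 hp2 hB, ns_of_prim h.three]
  have e1 : rho p ((16 * D ^ 2 : ℤ) : ZMod p) = 1 := by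
    have : ((16 * D ^ 2 : ℤ) : ZMod p) = (4 * D) ^ 2 := by push_cast; ring
    rw [this]
    unfold rho
    rw [quadraticChar_sq_one' (mul_ne_zero h4 hD0), Int.cast_one]
  have e2 : chi hπ hp3 ((4 * (16 * D ^ 2) : ℤ) : ZMod p) = w ^ (-cs π (D : Ei)).val := by
    have : ((4 * (16 * D ^ 2) : ℤ) : ZMod p) = 4 ^ 3 * (D : ZMod p) ^ 2 := by push_cast; ring
    rw [this, map_mul, chi_of_cube hπ hp3 h4, one_mul, map_pow, chi_cs h hπ hp3 hD]
    generalize cs π (D : Ei) = c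
    revert c
    decide
  rw [e1, e2, one_mul]

end

end Pool.Agent.Y696.CT
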