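import Mathlib
import Pool.Agent.Y703.CT.StmB
import Pool.Agent.Y696.CT.Pc

/-!
# Project CT, task LQ: the cubic character
-/

set_option autoImplicit false
set_option linter.unusedVariables false

namespace Pool.Agent.Y696.CT

open Pool.Agent.Y703.CT
open Pool.Agent.Y692.QS hiding chi
open Pool.Agent.Y715.T.Rec (cs nn w_pow_cube w_add cs_of exists_p)
open Pool.Agent.Y715.T.RecG (Pq cs_spec cs_one cs_neg cs_prod cs_pow)
open scoped Classical

lemma tw_add (c d : ZMod 3) : toC w ^ (c + d).val = toC w ^ c.val * toC w ^ d.val := by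
  rw [← map_pow, ← map_pow, ← map_pow, ← map_mul, w_add]

lemma cs_mul' {π : Ei} (h : Pq π) {x y : Ei} (hx : ¬ π ∣ x) (hy : ¬ π ∣ y) :
    cs π (x * y) = cs π x + cs π y := Pool.Agent.Y715.T.RecG.cs_mul h.prime h.norm hx hy

section

variable {J : Type} [Fintype J] {π : J → Ei} {e : J → ZMod 3}

lemma chD_mul (hpq : ∀ j, Pq (π j)) (e : J → ZMod 3) (α β : Ei) :
    chD π e (α * β) = chD π e α * chD π e β := by
  unfold chD
  by_cases h1 : ∃ j, π j ∣ α
  · obtain ⟨j, hj⟩ := h1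
    rw [if_pos ⟨j, Dvd.dvd.mul_right hj β⟩, if_pos ⟨j, hj⟩, zero_mul]
  by_cases h2 : ∃ j, π j ∣ β
  · obtain ⟨j, hj⟩ := h2
    rw [if_pos ⟨j, Dvd.dvd.mul_left hj α⟩, if_pos (⟨j, hj⟩ : ∃ j, π j ∣ β), mul_zero]
  have h3 : ¬ ∃ j, π j ∣ α * β := by
    rintro ⟨j, hj⟩
    rcases (hpq j).prime.dvd_or_dvd hj with h | h
    · exact h1 ⟨j, h⟩
    · exact h2 ⟨j, h⟩
  rw [if_neg h1, if_neg h2, if_neg h3, ← tw_add, ← Finset.sum_add_distrib]
  congr 2
  refine Finset.sum_congr rfl fun j _ => ?_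
  rw [cs_mul' (hpq j) (fun h => h1 ⟨j, h⟩) (fun h => h2 ⟨j, h⟩), mul_add]

lemma chD_one (hpq : ∀ j, Pq (π j)) (e : J → ZMod 3) : chD π e 1 = 1 := by
  unfold chD
  rw [if_neg]
  · have h1 : ∑ j, e j * cs (π j) 1 = 0 := Finset.sum_eq_zero fun j _ => by
      rw [cs_one (hpq j).prime (hpq j).norm, mul_zero]
    rw [h1, ZMod.val_zero, pow_zero]
  · rintro ⟨j, hj⟩
    exact (hpq j).prime.not_isUnit (isUnit_of_dvd_one hj)

lemma e_val {c : ZMod 3} (h : c ≠ 0) : c.val ≠ 0 := by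
  rwa [Ne, ZMod.val_eq_zero]

/-- primes dividing `D` -/
lemma dvd_pD {ρ : Ei} (hρ : Prime ρ) (hdt : Dt π e) (h : ρ ∣ pD π e) : ∃ j, π j ∣ ρ := by
  unfold pD at h
  obtain ⟨j, -, hj⟩ := (hρ.dvd_finsetProd_iff _).1 h
  exact ⟨j, (hρ.associated_of_dvd (hdt.pq j).prime (hρ.dvd_of_dvd_pow hj)).symm.dvd⟩

/-- the character at a prime of good reduction -/
lemma chD_prime (hrec : S_REC) {D : Ei} (hdt : Dt π e) (hD : D = pD π e ∨ D = -pD π e) {ρ : Ei}
    (hρ : Pq ρ) (hnd : ¬ ρ ∣ D) : chD π (fun j => -e j) ρ = toC w ^ (-cs ρ D).val := by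
  have h0 : ¬ ρ ∣ pD π e := by
    rcases hD with h | h
    · rwa [h] at hnd
    · rw [h, dvd_neg] at hnd
      exact hnd
  have h1 : ∀ j, ¬ ρ ∣ π j := fun j hj => h0 (by
    unfold pD
    exact dvd_trans (dvd_pow hj (e_val (hdt.e0 j))) (Finset.dvd_prod_of_mem _ (Finset.mem_univ j)))
  have h2 : ∀ j, ¬ π j ∣ ρ := fun j hj => h1 j
    ((hdt.pq j).prime.associated_of_dvd hρ.prime hj).symm.dvd
  have h3 : cs ρ D = ∑ j, e j * cs ρ (π j) := by
    have h4 : cs ρ D = cs ρ (pD π e) := by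
      rcases hD with h | h
      · rw [h]
      · rw [h, cs_neg hρ.prime hρ.norm h0]
    rw [h4]
    unfold pD
    rw [cs_prod hρ.prime hρ.norm _ _ fun j _ h5 => h1 j (hρ.prime.dvd_of_dvd_pow h5)]
    refine Finset.sum_congr rfl fun j _ => ?_
    rw [cs_pow hρ.prime hρ.norm (h1 j), ZMod.natCast_zmod_val]
  unfold chD
  rw [if_neg (fun ⟨j, hj⟩ => h2 j hj), h3]
  congr 2
  rw [← Finset.sum_neg_distrib]
  refine Finset.sum_congr rfl fun j _ => ?_
  rw [hrec (π j) ρ (hdt.pq j) hρ (h1 j), neg_mul]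

lemma chD_bad {ρ : Ei} {D : Ei} (hρ : Prime ρ) (hdt : Dt π e) (hD : D = pD π e ∨ D = -pD π e)
    (h : ρ ∣ D) (e' : J → ZMod 3) : chD π e' ρ = 0 := by
  have h0 : ρ ∣ pD π e := by
    rcases hD with h' | h'
    · rwa [h'] at h
    · rw [h', dvd_neg] at h
      exact h
  unfold chD
  rw [if_pos (dvd_pD hρ hdt h0)]

end

/-! ### Conjugation and inert primes -/

lemma star_dvd' {a b : Ei} (h : a ∣ b) : star a ∣ star b := by
  obtain ⟨c, rfl⟩ := h
  rw [star_mul']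
  exact dvd_mul_right _ _

lemma pq_star {π : Ei} (h : Pq π) : Pq (star π) := by
  refine ⟨(MulEquiv.prime_iff (starMulAut : Ei ≃* Ei)).2 h.prime, ?_⟩
  have h1 := star_dvd' h.three
  rw [star_sub, star_one] at h1
  have h2 : star (3 : Ei) = 3 := by decide
  rwa [h2] at h1

lemma cs_star_int {π : Ei} (h : Pq π) {n : ℤ} (hx : ¬ π ∣ (n : Ei)) :
    cs (star π) (n : Ei) = -cs π (n : Ei) := by
  have h' := pq_star h
  apply Pool.Agent.Y715.T.RecG.cs_of h'.prime h'.norm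
  have h1 := star_dvd' (cs_spec h.prime h.norm hx)
  have h2 : nn (star π) = nn π := by
    unfold nn
    rw [nr_star]
  have h3 : ∀ c : ZMod 3, star (w ^ c.val : Ei) = w ^ (-c).val := by
    intro c
    rw [star_pow, star_w]
    revert c
    decide
  have h4 : star (n : Ei) = n := by
    rw [eta (star (n : Ei)), star_re, star_im, QuadraticAlgebra.re_intCast,
      QuadraticAlgebra.im_intCast]
    simp
  rw [star_sub, star_pow, h3, h4] at h1
  rw [h2]
  exact h1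

/-- rational integers are cubes modulo inert primes -/
lemma cs_inert {p : ℕ} [hp : Fact p.Prime] (h3 : p % 3 = 2) (hπ : Pq (-(p : Ei))) {n : ℤ}
    (hn : ¬ (p : ℤ) ∣ n) : cs (-(p : Ei)) (n : Ei) = 0 := by
  apply Pool.Agent.Y715.T.RecG.cs_of hπ.prime hπ.norm
  rw [ZMod.val_zero, pow_zero, neg_dvd]
  have h1 : nn (-(p : Ei)) = (p - 1) * ((p + 1) / 3) := by
    unfold nn
    rw [nr_neg, nr_nat]
    have h2 : (((p : ℤ) ^ 2).natAbs) = p ^ 2 := by
      rw [Int.natAbs_pow, Int.natAbs_natCast]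
    rw [h2]
    obtain ⟨k, hk⟩ : ∃ k, p = 3 * k + 2 := ⟨p / 3, by omega⟩
    have h4 : (p + 1) / 3 = k + 1 := by omega
    have h5 : p ^ 2 - 1 = 3 * ((p - 1) * (k + 1)) := by
      rw [hk]
      have : 3 * k + 2 - 1 = 3 * k + 1 := by omega
      rw [this]
      have h6 : (3 * k + 2) ^ 2 = 3 * ((3 * k + 1) * (k + 1)) + 1 := by ring
      omega
    rw [h4, h5, Nat.mul_div_cancel_left _ (by norm_num)]
  have h2 : (n : ZMod p) ^ (nn (-(p : Ei))) - 1 = 0 := by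
    rw [h1, pow_mul, ZMod.pow_card_sub_one_eq_one, one_pow, sub_self]
    rwa [Ne, ZMod.intCast_zmod_eq_zero_iff_dvd]
  have h4 : (p : ℤ) ∣ n ^ (nn (-(p : Ei))) - 1 := by
    rw [← ZMod.intCast_zmod_eq_zero_iff_dvd _ p]
    push_cast
    exact h2
  have h5 := int_dvd_int.2 h4
  push_cast at h5
  exact h5

end Pool.Agent.Y696.CT
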