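import Mathlib
import Pool.Agent.Y696.EP
import Pool.Agent.Y696.CT.Chr

/-!
# Project CT, task LQ: Euler products over the Eisenstein integers
-/

set_option autoImplicit false
set_option linter.unusedVariables false

namespace Pool.Agent.Y696.CT

open IsDedekindDomain
open Pool.Agent.Y703.CT
open Pool.Agent.Y692.QS hiding chi
open Pool.Agent.Y715.T.Rec (exists_p)
open Pool.Agent.Y715.T.RecG (Pq)
open scoped Classical

/-! ### primary generators -/

lemma ep_ndvd {α : Ei} (h : (3 : Ei) ∣ α - 1) : ¬ (3 : ℤ) ∣ nr α := by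
  intro h1
  have h2 := (ZMod.intCast_zmod_eq_zero_iff_dvd (nr α) 3).2 (by exact_mod_cast h1)
  rw [nr_mod] at h2
  have h3 : (((3 : ℤ) : Ei)) ∣ α - 1 := by exact_mod_cast h
  obtain ⟨h4, h5⟩ := int_dvd.1 h3
  rw [QuadraticAlgebra.re_sub, QuadraticAlgebra.re_one] at h4
  rw [QuadraticAlgebra.im_sub, QuadraticAlgebra.im_one, sub_zero] at h5
  have h6 : ((α.re : ℤ) : ZMod 3) = 1 := by
    have := (ZMod.intCast_zmod_eq_zero_iff_dvd (α.re - 1) 3).2 (by exact_mod_cast h4)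
    push_cast at this
    exact sub_eq_zero.1 this
  have h7 : ((α.im : ℤ) : ZMod 3) = 0 := (ZMod.intCast_zmod_eq_zero_iff_dvd α.im 3).2
    (by exact_mod_cast h5)
  rw [h6, h7] at h2
  exact absurd h2 (by decide)

lemma ns_prim {α : Ei} (h : ¬ (3 : ℤ) ∣ nr α) : (3 : Ei) ∣ ns α - 1 := by
  obtain ⟨-, h5⟩ := ep_cases α h
  have e : ns α - 1 = star (ep α) * (α - ep α) := by
    unfold ns
    rw [mul_sub, h5]
  rw [e]
  exact Dvd.dvd.mul_left (ep_congr α h) _

lemma ep_isUnit {α : Ei} (h : ¬ (3 : ℤ) ∣ nr α) : IsUnit (star (ep α)) :=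
  IsUnit.of_mul_eq_one _ (ep_cases α h).2

lemma ns_assoc {α : Ei} (h : ¬ (3 : ℤ) ∣ nr α) : Associated (ns α) α := by
  obtain ⟨u, hu⟩ := ep_isUnit h
  unfold ns
  rw [← hu]
  exact (associated_unit_mul_left α _ u.isUnit)

lemma ns_unit {u : Ei} (hu : IsUnit u) : ns u = 1 := by
  unfold ns
  have h3 : ¬ (3 : ℤ) ∣ nr u := by
    rw [isUnit_iff.1 hu]
    decide
  have h4 := (ep_cases u h3).2
  rw [ep_unit hu] at h4 ⊢
  exact h4

lemma ns_of_assoc {α β : Ei} (h : Associated α β) : ns α = ns β ∧ nr α = nr β := by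
  obtain ⟨u, rfl⟩ := h
  rw [ns_mul, ns_unit u.isUnit, mul_one, nr_mul, isUnit_iff.1 u.isUnit, mul_one]
  exact ⟨rfl, rfl⟩

/-- the generator -/
noncomputable def gn (I : Ideal Ei) : Ei := Submodule.IsPrincipal.generator I

lemma span_gn (I : Ideal Ei) : Ideal.span {gn I} = I := Ideal.span_singleton_generator I

lemma gn_span (a : Ei) : Associated (gn (Ideal.span {a})) a :=
  Ideal.span_singleton_eq_span_singleton.1 (span_gn _)

/-- a function on the primary elements as a function on the ideals -/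
noncomputable def fI (g : Ei → ℂ) (I : Ideal Ei) : ℂ :=
  if (3 : ℤ) ∣ nr (gn I) then 0 else g (ns (gn I))

lemma fI_span (g : Ei → ℂ) (a : Ei) :
    fI g (Ideal.span {a}) = if (3 : ℤ) ∣ nr a then 0 else g (ns a) := by
  unfold fI
  obtain ⟨h1, h2⟩ := ns_of_assoc (gn_span a)
  rw [h1, h2]

lemma fI_prim (g : Ei → ℂ) {a : Ei} (h : (3 : Ei) ∣ a - 1) : fI g (Ideal.span {a}) = g a := by
  rw [fI_span, if_neg (ep_ndvd h), ns_of_prim h]

lemma fI_bot (g : Ei → ℂ) : fI g ⊥ = 0 := by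
  have : (⊥ : Ideal Ei) = Ideal.span {0} := (Ideal.span_singleton_eq_bot.2 rfl).symm
  rw [this, fI_span, if_pos (by decide)]

lemma fI_top {g : Ei → ℂ} (h1 : g 1 = 1) : fI g ⊤ = 1 := by
  have : (⊤ : Ideal Ei) = Ideal.span {1} := by rw [Ideal.span_singleton_one]
  rw [this, fI_prim g (by rw [sub_self]; exact dvd_zero _), h1]

lemma fI_mul {g : Ei → ℂ} (hm : ∀ a b, g (a * b) = g a * g b) (I J : Ideal Ei) :
    fI g (I * J) = fI g I * fI g J := by
  have h3 : Prime (3 : ℤ) := Int.prime_three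
  rw [← span_gn I, ← span_gn J, Ideal.span_singleton_mul_span_singleton, fI_span, fI_span, fI_span,
    nr_mul, ns_mul, hm]
  have h4 : (3 : ℤ) ∣ nr (gn I) * nr (gn J) ↔ (3 : ℤ) ∣ nr (gn I) ∨ (3 : ℤ) ∣ nr (gn J) := h3.dvd_mul
  by_cases h1 : (3 : ℤ) ∣ nr (gn I)
  · rw [if_pos (h4.2 (Or.inl h1)), if_pos h1, zero_mul]
  · by_cases h2 : (3 : ℤ) ∣ nr (gn J)
    · rw [if_pos (h4.2 (Or.inr h2)), if_pos h2, mul_zero]
    · rw [if_neg (fun h => (h4.1 h).elim h1 h2), if_neg h1, if_neg h2]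

/-- the sum over the ideals -/
lemma hasSum_fI {g : Ei → ℂ} {a : ℂ}
    (h : HasSum (fun α : {α : Ei // (3 : Ei) ∣ α - 1} => g α) a) : HasSum (fI g) a := by
  have hinj : Function.Injective
      (fun α : {α : Ei // (3 : Ei) ∣ α - 1} => (Ideal.span {(α : Ei)} : Ideal Ei)) := by
    intro α β hαβ
    apply Subtype.ext
    have h1 := (ns_of_assoc (Ideal.span_singleton_eq_span_singleton.1 hαβ)).1
    rwa [ns_of_prim α.2, ns_of_prim β.2] at h1
  rw [← hinj.hasSum_iff]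
  · refine h.congr_fun fun α => ?_
    exact fI_prim g α.2
  · intro I hI
    unfold fI
    rw [if_pos]
    by_contra h1
    apply hI
    refine ⟨⟨ns (gn I), ns_prim h1⟩, ?_⟩
    show Ideal.span {ns (gn I)} = I
    conv_rhs => rw [← span_gn I]
    exact Ideal.span_singleton_eq_span_singleton.2 (ns_assoc h1)

/-- the Euler product over the primes of the Eisenstein integers -/
theorem hasProd_Ei {g : Ei → ℂ} (h1 : g 1 = 1) (hm : ∀ a b, g (a * b) = g a * g b) {a : ℂ}
    (h : HasSum (fun α : {α : Ei // (3 : Ei) ∣ α - 1} => g α) a) :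
    HasProd (fun P : HeightOneSpectrum Ei => (1 - fI g P.asIdeal)⁻¹) a := by
  have h2 := hasSum_fI h
  have h3 := Pool.Agent.Y696.hasProd_ideal (fI g) (fI_bot g) (fI_top h1) (fI_mul hm) h2.summable
  rwa [h2.tsum_eq] at h3

/-! ### the rational prime below -/

lemma gn_prime (P : HeightOneSpectrum Ei) : Prime (gn P.asIdeal) := by
  have h1 : gn P.asIdeal ≠ 0 := by
    intro h
    apply P.ne_bot
    rw [← span_gn P.asIdeal, h, Ideal.span_singleton_eq_bot]
  rw [← Ideal.span_singleton_prime h1, span_gn]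
  exact P.isPrime

/-- the rational prime below -/
noncomputable def bl (P : HeightOneSpectrum Ei) : Nat.Primes :=
  ⟨(exists_p (gn_prime P)).choose, (exists_p (gn_prime P)).choose_spec.1⟩

lemma bl_dvd (P : HeightOneSpectrum Ei) : gn P.asIdeal ∣ (((bl P : ℕ) : Ei)) :=
  (exists_p (gn_prime P)).choose_spec.2.1

lemma bl_uniq (P : HeightOneSpectrum Ei) (q : Nat.Primes) (h : gn P.asIdeal ∣ ((q : ℕ) : Ei)) :
    bl P = q := by
  by_contra hne
  have h1 : Nat.Coprime (bl P : ℕ) (q : ℕ) := (Nat.coprime_primes (bl P).2 q.2).2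
    (fun h2 => hne (Subtype.ext h2))
  have h2 : IsCoprime (((bl P : ℕ) : ℤ)) (((q : ℕ) : ℤ)) := Nat.isCoprime_iff_coprime.2 h1
  obtain ⟨a, b, hab⟩ := h2
  have h3 : (a : Ei) * ((bl P : ℕ) : Ei) + (b : Ei) * ((q : ℕ) : Ei) = 1 := by
    have := congrArg (fun n : ℤ => (n : Ei)) hab
    push_cast at this
    exact this
  apply (gn_prime P).not_isUnit
  apply isUnit_of_dvd_one
  rw [← h3]
  exact dvd_add (Dvd.dvd.mul_left (bl_dvd P) _) (Dvd.dvd.mul_left h _)

/-- the prime ideal of a prime element -/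
noncomputable def hp (ρ : Ei) (h : Prime ρ) : HeightOneSpectrum Ei :=
  ⟨Ideal.span {ρ}, (Ideal.span_singleton_prime h.ne_zero).2 h, by
    rw [Ne, Ideal.span_singleton_eq_bot]
    exact h.ne_zero⟩

lemma bl_hp {ρ : Ei} (h : Prime ρ) (q : Nat.Primes) (hd : ρ ∣ ((q : ℕ) : Ei)) :
    bl (hp ρ h) = q := bl_uniq _ _ (dvd_trans (gn_span ρ).dvd hd)

lemma eq_hp {ρ : Ei} (h : Prime ρ) (P : HeightOneSpectrum Ei) (hd : gn P.asIdeal ∣ ρ) :
    P = hp ρ h := by
  apply HeightOneSpectrum.ext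
  show P.asIdeal = Ideal.span {ρ}
  rw [← span_gn P.asIdeal]
  exact Ideal.span_singleton_eq_span_singleton.2 ((gn_prime P).associated_of_dvd h hd)

/-- regrouping -/
theorem regroup {f : HeightOneSpectrum Ei → ℂ} {a : ℂ} (h : HasProd f a) {g : Nat.Primes → ℂ}
    (hg : ∀ p, HasProd (fun P : {P : HeightOneSpectrum Ei // bl P = p} => f P.1) (g p)) :
    HasProd g a := by
  have h3 := (Equiv.sigmaFiberEquiv bl).hasProd_iff.2 h
  exact h3.sigma fun p => hg p

end Pool.Agent.Y696.CT
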