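import Mathlib
import Pool.Agent.Y696.CT.Eu

/-!
# Project CT, task LQ: the `L`-function of `y² + D y = x³`
-/

set_option autoImplicit false
set_option linter.unusedVariables false

namespace Pool.Agent.Y696.CT

open IsDedekindDomain
open Pool.Agent.Y703.CT
open Pool.Agent.Y692.QS hiding chi
open Pool.Agent.Y715.T.Rec (exists_p cs)
open Pool.Agent.Y715.T.RecG (Pq)
open scoped Classical

/-! ### primes of the Eisenstein integers -/

lemma prime_of_nr {p : ℕ} (hp : p.Prime) {α : Ei} (h : nr α = p) : Prime α := by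
  have hirr : Irreducible α := by
    constructor
    · rw [Pool.Agent.Y692.QS.isUnit_iff, h]
      have := hp.one_lt
      omega
    · intro a b hab
      rw [Pool.Agent.Y692.QS.isUnit_iff, Pool.Agent.Y692.QS.isUnit_iff]
      have h1 : nr a * nr b = p := by rw [← nr_mul, ← hab, h]
      have h2 : (nr a).natAbs * (nr b).natAbs = p := by
        rw [← Int.natAbs_mul, h1, Int.natAbs_natCast]
      have ha := nr_nonneg a
      have hb := nr_nonneg b
      rcases (Nat.dvd_prime hp).1 (⟨_, h2.symm⟩ : (nr a).natAbs ∣ p) with h3 | h3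
      · left
        omega
      · right
        rw [h3] at h2
        have h5 : (nr b).natAbs = 1 := Nat.eq_of_mul_eq_mul_left hp.pos (by rw [h2, mul_one])
        omega
  exact hirr.prime

/-- primes `1 mod 3` are norms -/
theorem exists_pi {p : ℕ} (hp : p.Prime) (h3 : p % 3 = 1) : ∃ π : Ei, nr π = p := by
  have : Fact p.Prime := ⟨hp⟩
  by_contra hcon
  push Not at hcon
  -- a cube root of unity modulo `p`
  obtain ⟨z, hz⟩ : ∃ z : ZMod p, z ^ 2 + z + 1 = 0 := by
    have hcyc : IsCyclic (ZMod p)ˣ := inferInstance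
    obtain ⟨g, hg⟩ := hcyc.exists_generator
    have ho : orderOf g = p - 1 := by
      rw [orderOf_eq_card_of_forall_mem_zpowers hg, Nat.card_eq_fintype_card, ZMod.card_units]
    have hp2 := hp.two_le
    have hne : g ^ ((p - 1) / 3) ≠ 1 := by
      intro h
      have h4 := orderOf_dvd_of_pow_eq_one h
      rw [ho] at h4
      have h6 := Nat.le_of_dvd (by omega) h4
      omega
    have hc : (g ^ ((p - 1) / 3)) ^ 3 = 1 := by
      rw [← pow_mul]
      have : (p - 1) / 3 * 3 = p - 1 := by omega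
      rw [this, ← ho, pow_orderOf_eq_one]
    refine ⟨((g ^ ((p - 1) / 3) : (ZMod p)ˣ) : ZMod p), ?_⟩
    set y : ZMod p := ((g ^ ((p - 1) / 3) : (ZMod p)ˣ) : ZMod p) with hy
    have h1 : y ^ 3 = 1 := by
      rw [hy, ← Units.val_pow_eq_pow_val, hc, Units.val_one]
    have h2 : y - 1 ≠ 0 := by
      intro h
      apply hne
      apply Units.ext
      rw [Units.val_one]
      exact sub_eq_zero.1 h
    apply mul_left_cancel₀ h2
    linear_combination h1
  obtain ⟨n, hn⟩ := ZMod.intCast_surjective z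
  have hdvd : (p : ℤ) ∣ n ^ 2 + n + 1 := by
    rw [← ZMod.intCast_zmod_eq_zero_iff_dvd _ p]
    push_cast
    rw [hn, hz]
  have hpp : Prime (p : ℤ) := Nat.prime_iff_prime_int.1 hp
  have hirr : Irreducible ((p : ℤ) : Ei) := by
    constructor
    · rw [Pool.Agent.Y692.QS.isUnit_iff, nr_int]
      have := hp.one_lt
      have h1 : (1 : ℤ) < p := by exact_mod_cast this
      nlinarith
    · intro a b hab
      have h1 : nr a * nr b = (p : ℤ) ^ 2 := by rw [← nr_mul, ← hab, nr_int]
      rw [Pool.Agent.Y692.QS.isUnit_iff, Pool.Agent.Y692.QS.isUnit_iff]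
      have h2 : (nr a).natAbs * (nr b).natAbs = p ^ 2 := by
        rw [← Int.natAbs_mul, h1, Int.natAbs_pow, Int.natAbs_natCast]
      have h3 : (nr a).natAbs ∣ p ^ 2 := ⟨_, h2.symm⟩
      obtain ⟨k, hk, hk2⟩ := (Nat.dvd_prime_pow hp).1 h3
      have ha := nr_nonneg a
      have hb := nr_nonneg b
      interval_cases k
      · left
        rw [pow_zero] at hk2
        omega
      · exfalso
        rw [pow_one] at hk2
        exact hcon a (by omega)
      · right
        rw [hk2] at h2
        have h4 : 0 < p ^ 2 := pow_pos hp.pos 2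
        have h5 : (nr b).natAbs = 1 := Nat.eq_of_mul_eq_mul_left h4 (by rw [h2, mul_one])
        omega
  have hprime : Prime ((p : ℤ) : Ei) := hirr.prime
  have hd2 : ((p : ℤ) : Ei) ∣ ((n : Ei) - w) * ((n : Ei) + 1 + w) := by
    have e : ((n : Ei) - w) * ((n : Ei) + 1 + w) = ((n ^ 2 + n + 1 : ℤ) : Ei) := by
      have h1 : ((n : Ei) - w) * ((n : Ei) + 1 + w) = (n : Ei) ^ 2 + n - w - w * w := by ring
      rw [h1, w_sq]
      push_cast
      ring
    rw [e]
    exact int_dvd_int.2 hdvd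
  rcases hprime.dvd_or_dvd hd2 with h | h
  · obtain ⟨-, h1⟩ := int_dvd.1 h
    have h2 : ((n : Ei) - w).im = -1 := by
      rw [QuadraticAlgebra.im_sub, QuadraticAlgebra.im_intCast, w_im]; ring
    rw [h2] at h1
    exact hpp.not_isUnit (isUnit_of_dvd_one (by simpa using h1))
  · obtain ⟨-, h1⟩ := int_dvd.1 h
    have h2 : ((n : Ei) + 1 + w).im = 1 := by
      rw [QuadraticAlgebra.im_add, QuadraticAlgebra.im_add, QuadraticAlgebra.im_intCast, w_im]
      rfl
    rw [h2] at h1
    exact hpp.not_isUnit (isUnit_of_dvd_one h1)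

/-- the primary prime above a prime `1 mod 3` -/
lemma exists_pq {p : ℕ} (hp : p.Prime) (h3 : p % 3 = 1) : ∃ π : Ei, Pq π ∧ nr π = p := by
  obtain ⟨α, hα⟩ := exists_pi hp h3
  have h1 : ¬ (3 : ℤ) ∣ nr α := by
    rw [hα]
    omega
  have h2 := ns_assoc h1
  refine ⟨ns α, ⟨h2.symm.prime (prime_of_nr hp hα), ns_prim h1⟩, ?_⟩
  rw [nr_ns h1, hα]

/-- primes `2 mod 3` are inert -/
lemma inert {p : ℕ} (hp : p.Prime) (h3 : p % 3 = 2) : Pq (-(p : Ei)) := by
  constructor
  · have hnu : ¬ IsUnit (p : Ei) := by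
      rw [Pool.Agent.Y692.QS.isUnit_iff, nr_nat]
      have := hp.one_lt
      have h1 : (1 : ℤ) < p := by exact_mod_cast this
      nlinarith
    have hn0 : (p : Ei) ≠ 0 := by
      rw [Ne, ← nr_zero_iff, nr_nat]
      exact pow_ne_zero _ (by exact_mod_cast hp.ne_zero)
    obtain ⟨ρ, hρ, c, hc⟩ := WfDvdMonoid.exists_irreducible_factor hnu hn0
    have h1 : nr ρ * nr c = (p : ℤ) ^ 2 := by rw [← nr_mul, ← hc, nr_nat]
    have h2 : (nr ρ).natAbs * (nr c).natAbs = p ^ 2 := by
      rw [← Int.natAbs_mul, h1, Int.natAbs_pow, Int.natAbs_natCast]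
    obtain ⟨k, hk, hk2⟩ := (Nat.dvd_prime_pow hp).1 (⟨_, h2.symm⟩ : (nr ρ).natAbs ∣ p ^ 2)
    have ha := nr_nonneg ρ
    have hb := nr_nonneg c
    interval_cases k
    · exfalso
      rw [pow_zero] at hk2
      exact hρ.not_isUnit (Pool.Agent.Y692.QS.isUnit_iff.2 (by omega))
    · exfalso
      rw [pow_one] at hk2
      have h4 : nr ρ = p := by omega
      have h5 := nr_mod ρ
      rw [h4] at h5
      have h6 : ((p : ℤ) : ZMod 3) = 2 := by
        have h7 : ((p % 3 : ℕ) : ZMod 3) = (p : ZMod 3) := ZMod.natCast_mod p 3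
        rw [h3] at h7
        rw [Int.cast_natCast, ← h7]
        rfl
      rw [h6] at h5
      generalize ((ρ.re : ZMod 3) + ρ.im) = t at h5
      revert t
      decide
    · rw [hk2] at h2
      have h4 : 0 < p ^ 2 := pow_pos hp.pos 2
      have h5 : (nr c).natAbs = 1 := Nat.eq_of_mul_eq_mul_left h4 (by rw [h2, mul_one])
      have h6 : IsUnit c := Pool.Agent.Y692.QS.isUnit_iff.2 (by omega)
      have h7 : Associated ρ (p : Ei) := ⟨h6.unit, by rw [h6.unit_spec, hc]⟩
      exact (h7.prime hρ.prime).neg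
  · obtain ⟨k, hk⟩ : ∃ k : ℕ, p = 3 * k + 2 := ⟨p / 3, by omega⟩
    refine ⟨-(k + 1 : Ei), ?_⟩
    rw [hk]
    push_cast
    ring

/-! ### the summands -/

section

variable {J : Type} [Fintype J] {π : J → Ei} {e : J → ZMod 3}

/-- the summand -/
noncomputable def gg (π : J → Ei) (e : J → ZMod 3) (s : ℂ) (α : Ei) : ℂ :=
  toC α * chD π e α * ((nr α : ℤ) : ℂ) ^ (-s)

lemma gg_one (hpq : ∀ j, Pq (π j)) (e : J → ZMod 3) (s : ℂ) : gg π e s 1 = 1 := by
  unfold gg
  rw [chD_one hpq, nr_one, map_one, Int.cast_one, Complex.one_cpow, mul_one, mul_one]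

lemma nr_cpow (α β : Ei) (s : ℂ) : ((nr (α * β) : ℤ) : ℂ) ^ s =
    ((nr α : ℤ) : ℂ) ^ s * ((nr β : ℤ) : ℂ) ^ s := by
  have ha : (0 : ℝ) ≤ (nr α : ℝ) := by exact_mod_cast nr_nonneg α
  have hb : (0 : ℝ) ≤ (nr β : ℝ) := by exact_mod_cast nr_nonneg β
  have h := Complex.mul_cpow_ofReal_nonneg ha hb s
  rw [nr_mul]
  push_cast at h ⊢
  exact h

lemma gg_mul (hpq : ∀ j, Pq (π j)) (e : J → ZMod 3) (s : ℂ) (α β : Ei) :
    gg π e s (α * β) = gg π e s α * gg π e s β := by
  unfold gg
  rw [chD_mul hpq, map_mul, nr_cpow]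
  ring

end

lemma delta (D : ℤ) : (WD D).Δ = -27 * D ^ 4 := by
  simp only [WD, WeierstrassCurve.Δ, WeierstrassCurve.b₂, WeierstrassCurve.b₄,
    WeierstrassCurve.b₆, WeierstrassCurve.b₈]
  ring

lemma dvd_delta {p : ℕ} (hp : p.Prime) (D : ℤ) : (p : ℤ) ∣ (WD D).Δ ↔ p = 3 ∨ (p : ℤ) ∣ D := by
  have hpp : Prime (p : ℤ) := Nat.prime_iff_prime_int.1 hp
  rw [delta]
  constructor
  · intro h
    rcases hpp.dvd_or_dvd h with h1 | h1
    · left
      have h2 : (p : ℤ) ∣ 3 ^ 3 := by
        rw [← dvd_neg]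
        exact h1
      have h3 := hpp.dvd_of_dvd_pow h2
      have h4 : p ∣ 3 := by exact_mod_cast h3
      exact (Nat.prime_dvd_prime_iff_eq hp Nat.prime_three).1 h4
    · exact Or.inr (hpp.dvd_of_dvd_pow h1)
  · rintro (h | h)
    · subst h
      exact Dvd.dvd.mul_right ⟨-9, by norm_num⟩ _
    · exact Dvd.dvd.mul_left (dvd_pow h (by norm_num)) _

lemma cpow_two {p : ℕ} (hp : p.Prime) (s : ℂ) :
    (p : ℂ) ^ (1 - 2 * s) = p * ((p : ℂ) ^ (-s) * (p : ℂ) ^ (-s)) := by
  have h0 : (p : ℂ) ≠ 0 := by exact_mod_cast hp.ne_zero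
  have e1 : (1 - 2 * s : ℂ) = 1 + (-s + -s) := by ring
  rw [e1, Complex.cpow_add _ _ h0, Complex.cpow_add _ _ h0, Complex.cpow_one]

section

variable {J : Type} [Fintype J] {π : J → Ei} {e : J → ZMod 3}

/-- the prime above three -/
lemma gn_three (P : HeightOneSpectrum Ei) (h : gn P.asIdeal ∣ ((3 : ℕ) : Ei)) :
    (3 : ℤ) ∣ nr (gn P.asIdeal) := by
  obtain ⟨c, hc⟩ := h
  have h1 : nr (gn P.asIdeal) * nr c = ((3 : ℕ) : ℤ) ^ 2 := by rw [← nr_mul, ← hc, nr_nat]
  have h2 : (nr (gn P.asIdeal)).natAbs * (nr c).natAbs = 3 ^ 2 := by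
    rw [← Int.natAbs_mul, h1]
    rfl
  obtain ⟨k, hk, hk2⟩ := (Nat.dvd_prime_pow Nat.prime_three).1
    (⟨_, h2.symm⟩ : (nr (gn P.asIdeal)).natAbs ∣ 3 ^ 2)
  have ha := nr_nonneg (gn P.asIdeal)
  rcases Nat.eq_zero_or_pos k with h0 | h0
  · exfalso
    rw [h0, pow_zero] at hk2
    exact (gn_prime P).not_isUnit (Pool.Agent.Y692.QS.isUnit_iff.2 (by omega))
  · have h3 : 3 ∣ (nr (gn P.asIdeal)).natAbs := by
      rw [hk2]
      exact dvd_pow_self 3 h0.ne'
    omega

lemma im_star_ne {p : ℕ} (hp : p.Prime) {α : Ei} (h : nr α = p) : star α ≠ α := by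
  intro h1
  have h2 : α.im = 0 := by
    have := congrArg QuadraticAlgebra.im h1
    rw [star_im] at this
    omega
  unfold nr at h
  rw [h2, mul_zero, sub_zero] at h
  have h3 : α.re.natAbs ^ 2 = p := by
    have : ((α.re.natAbs : ℤ)) ^ 2 = p := by
      rw [Int.natCast_natAbs, sq_abs]
      linarith
    exact_mod_cast this
  rcases (Nat.dvd_prime hp).1 (⟨α.re.natAbs, by rw [← h3, pow_two]⟩ : α.re.natAbs ∣ p) with h4 | h4
  · rw [h4] at h3
    exact hp.one_lt.ne h3
  · rw [h4, pow_two] at h3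
    have := hp.one_lt
    nlinarith

/-- the local factors -/
theorem factor (hrec : S_REC) {D : ℤ} (hdt : Dt π e)
    (hD : (D : Ei) = pD π e ∨ (D : Ei) = -pD π e) (s : ℂ) (p : Nat.Primes) :
    HasProd (fun P : {P : HeightOneSpectrum Ei // bl P = p} =>
      (1 - fI (gg π (fun j => -e j) s) P.1.asIdeal)⁻¹)
      ((1 - (Pool.Agent.W97.MT.ap (WD D) p : ℂ) * ((p : ℕ) : ℂ) ^ (-s) +
      (if ((p : ℕ) : ℤ) ∣ (WD D).Δ then 0 else ((p : ℕ) : ℂ) ^ (1 - 2 * s)))⁻¹) := by
  have hfact : Fact (p : ℕ).Prime := ⟨p.2⟩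
  have hpp : Prime ((p : ℕ) : ℤ) := Nat.prime_iff_prime_int.1 p.2
  set g := gg π (fun j => -e j) s with hg
  by_cases hbad : ((p : ℕ) : ℤ) ∣ (WD D).Δ
  · -- bad primes
    rw [if_pos hbad, add_zero]
    have hap : Pool.Agent.W97.MT.ap (WD D) p = 0 := by
      rcases (dvd_delta p.2 D).1 hbad with h | h
      · rw [h]
        exact ap_cube cube_three D
      · exact ap_bad h
    rw [hap, Int.cast_zero, zero_mul, sub_zero, inv_one]
    refine hasProd_one.congr_fun fun P => ?_
    have hz : fI g P.1.asIdeal = 0 := by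
      unfold fI
      by_cases h3 : (3 : ℤ) ∣ nr (gn P.1.asIdeal)
      · rw [if_pos h3]
      · rw [if_neg h3]
        have hPp : gn P.1.asIdeal ∣ (((p : ℕ) : Ei)) := by
          have := bl_dvd P.1
          rwa [P.2] at this
        rcases (dvd_delta p.2 D).1 hbad with h | h
        · rw [h] at hPp
          exact absurd (gn_three P.1 hPp) h3
        · have hPD : ns (gn P.1.asIdeal) ∣ (D : Ei) := by
            refine dvd_trans (ns_assoc h3).dvd (dvd_trans hPp ?_)
            have := int_dvd_int.2 h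
            rwa [Int.cast_natCast] at this
          rw [hg]
          unfold gg
          rw [chD_bad ((ns_assoc h3).symm.prime (gn_prime P.1)) hdt hD hPD, mul_zero, zero_mul]
    rw [hz, sub_zero, inv_one]
  · rw [if_neg hbad]
    rw [dvd_delta p.2 D, not_or] at hbad
    obtain ⟨hp3, hpD⟩ := hbad
    have hm : (p : ℕ) % 3 = 1 ∨ (p : ℕ) % 3 = 2 := by
      have : (p : ℕ) % 3 ≠ 0 := fun h => hp3
        ((Nat.prime_dvd_prime_iff_eq Nat.prime_three p.2).1 (Nat.dvd_of_mod_eq_zero h)).symm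
      omega
    rcases hm with hm | hm
    · -- split primes
      obtain ⟨α, hα, hnα⟩ := exists_pq p.2 hm
      have hα' := pq_star hα
      have hprod : α * star α = (((p : ℕ) : ℕ) : Ei) := by
        rw [mul_star, hnα, Int.cast_natCast]
      have d1 : α ∣ (((p : ℕ) : Ei)) := ⟨star α, hprod.symm⟩
      have d2 : star α ∣ (((p : ℕ) : Ei)) := ⟨α, by rw [mul_comm, hprod]⟩
      set P1 : {P : HeightOneSpectrum Ei // bl P = p} := ⟨hp α hα.prime, bl_hp hα.prime p d1⟩
      set P2 : {P : HeightOneSpectrum Ei // bl P = p} :=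
        ⟨hp (star α) hα'.prime, bl_hp hα'.prime p d2⟩
      have hne : P1 ≠ P2 := by
        intro h
        have h1 : (Ideal.span {α} : Ideal Ei) = Ideal.span {star α} :=
          congrArg HeightOneSpectrum.asIdeal (congrArg Subtype.val h)
        have h2 := (ns_of_assoc (Ideal.span_singleton_eq_span_singleton.1 h1)).1
        rw [ns_of_prim hα.three, ns_of_prim hα'.three] at h2
        exact im_star_ne p.2 hnα h2.symm
      have hall : ∀ P : {P : HeightOneSpectrum Ei // bl P = p}, P = P1 ∨ P = P2 := by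
        intro P
        have h1 : gn P.1.asIdeal ∣ α * star α := by
          rw [hprod]
          have := bl_dvd P.1
          rwa [P.2] at this
        rcases (gn_prime P.1).dvd_or_dvd h1 with h | h
        · exact Or.inl (Subtype.ext (eq_hp hα.prime P.1 h))
        · exact Or.inr (Subtype.ext (eq_hp hα'.prime P.1 h))
      have hP := hasProd_prod_of_ne_finset_one (L := .unconditional _) (s := {P1, P2})
        (f := fun P : {P : HeightOneSpectrum Ei // bl P = p} => (1 - fI g P.1.asIdeal)⁻¹)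
        (fun P hP => by
          exfalso
          apply hP
          rw [Finset.mem_insert, Finset.mem_singleton]
          exact hall P)
      rw [Finset.prod_pair hne] at hP
      have v1 : fI g P1.1.asIdeal = g α := fI_prim g hα.three
      have v2 : fI g P2.1.asIdeal = g (star α) := fI_prim g hα'.three
      rw [v1, v2] at hP
      refine Eq.mp ?_ hP
      congr 1
      have hnd : ¬ α ∣ (D : Ei) := int_ndvd hnα hpD
      have hnd' : ¬ star α ∣ (D : Ei) := int_ndvd (by rw [nr_star, hnα]) hpD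
      have c1 : chD π (fun j => -e j) α = toC w ^ (-cs α (D : Ei)).val :=
        chD_prime hrec hdt hD hα hnd
      have c2 : chD π (fun j => -e j) (star α) = toC w ^ (cs α (D : Ei)).val := by
        rw [chD_prime hrec hdt hD hα' hnd', cs_star_int hα hnd, neg_neg]
      have hap := congrArg toC (ap_one hα hnα hp3 (by
        rintro h
        rw [h] at hm
        norm_num at hm) hpD)
      rw [map_intCast, map_add, star_mul', map_mul, map_mul] at hap
      have hst : star (w ^ (-cs α (D : Ei)).val : Ei) = w ^ (cs α (D : Ei)).val := by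
        generalize cs α (D : Ei) = c
        revert c
        decide
      rw [hst, map_pow, map_pow] at hap
      have hww : toC w ^ (-cs α (D : Ei)).val * toC w ^ (cs α (D : Ei)).val = 1 := by
        rw [← tw_add, neg_add_cancel, ZMod.val_zero, pow_zero]
      have hpC : toC α * toC (star α) = ((p : ℕ) : ℂ) := by
        rw [← map_mul, hprod, map_natCast]
      rw [← mul_inv, hap, cpow_two p.2, hg]
      unfold gg
      rw [nr_star, hnα, c1, c2, Int.cast_natCast]
      congr 1
      set A := toC w ^ (-cs α (D : Ei)).val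
      set B := toC w ^ (cs α (D : Ei)).val
      set X := (((p : ℕ)) : ℂ) ^ (-s)
      linear_combination (X * X) * (A * B) * hpC + (X * X) * ((p : ℕ) : ℂ) * hww
    · -- inert primes
      have hα := inert p.2 hm
      have d1 : -(((p : ℕ) : Ei)) ∣ (((p : ℕ) : Ei)) := neg_dvd.2 dvd_rfl
      set P1 : {P : HeightOneSpectrum Ei // bl P = p} :=
        ⟨hp (-(((p : ℕ) : Ei))) hα.prime, bl_hp hα.prime p d1⟩
      have hall : ∀ P : {P : HeightOneSpectrum Ei // bl P = p}, P = P1 := by
        intro P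
        have h1 : gn P.1.asIdeal ∣ -(((p : ℕ) : Ei)) := by
          rw [dvd_neg]
          have := bl_dvd P.1
          rwa [P.2] at this
        exact Subtype.ext (eq_hp hα.prime P.1 h1)
      have hP := hasProd_prod_of_ne_finset_one (L := .unconditional _) (s := {P1})
        (f := fun P : {P : HeightOneSpectrum Ei // bl P = p} => (1 - fI g P.1.asIdeal)⁻¹)
        (fun P hP => by
          exfalso
          apply hP
          rw [Finset.mem_singleton]
          exact hall P)
      rw [Finset.prod_singleton] at hP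
      have v1 : fI g P1.1.asIdeal = g (-(((p : ℕ) : Ei))) := fI_prim g hα.three
      rw [v1] at hP
      refine Eq.mp ?_ hP
      congr 1
      have hnd : ¬ -(((p : ℕ) : Ei)) ∣ (D : Ei) := by
        rw [neg_dvd]
        intro h
        apply hpD
        rw [← int_dvd_int, Int.cast_natCast]
        exact h
      have c1 : chD π (fun j => -e j) (-(((p : ℕ) : Ei))) = 1 := by
        rw [chD_prime hrec hdt hD hα hnd, cs_inert hm hα hpD, neg_zero, ZMod.val_zero, pow_zero]
      rw [ap_cube (cube_two hm) D, cpow_two p.2, hg]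
      unfold gg
      rw [c1, nr_neg, nr_nat, map_neg, map_natCast]
      congr 1
      have h0 : (0 : ℝ) ≤ (((p : ℕ)) : ℝ) := Nat.cast_nonneg _
      have h2 := Complex.mul_cpow_ofReal_nonneg h0 h0 (-s)
      rw [Complex.ofReal_natCast] at h2
      push_cast
      rw [pow_two, h2]
      ring

end

/-- **CT-LQ.** -/
theorem LQ : S_LQ := by
  intro hrec D _ J _ π e hdt hD F hF
  refine ⟨hF.1, fun s hs => ?_⟩
  have h1 : HasSum (fun α : {α : Ei // (3 : Ei) ∣ α - 1} => gg π (fun j => -e j) s α) (F s) :=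
    hF.2 s hs
  have h2 := hasProd_Ei (gg_one hdt.pq _ s) (gg_mul hdt.pq _ s) h1
  have hD' : (((D : ℕ) : ℤ) : Ei) = pD π e ∨ (((D : ℕ) : ℤ) : Ei) = -pD π e := by
    rwa [Int.cast_natCast]
  exact regroup h2 fun p => factor hrec hdt hD' s p

end Pool.Agent.Y696.CT
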